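import Mathlib

/-!
# The field of rational functions is not Schur-finite: the statement
-/

set_option autoImplicit false

open CategoryTheory

namespace Pool.Agent.W484.SF

universe u v

section smooth

variable (k K : Type) [Field k] [CommRing K] [Algebra k K]

/-- There is `d` in `K ⊗ K` which is not a zero divisor and generates the kernel of the
multiplication. So there is an exact sequence `0 → K ⊗ K → K ⊗ K → K → 0` of bimodules, and `K` is a
perfect (compact) object of the derived category of `K`-bimodules: `K` is smooth. -/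
def HasSmoothDiagonal : Prop :=
  ∃ d : TensorProduct k K K, (∀ z, d * z = 0 → z = 0) ∧
    ∀ z, Algebra.TensorProduct.lmul' k z = 0 ↔ ∃ w, z = d * w

end smooth

section forms

variable (k : Type) [Field k] {R : Type} [CommRing R] [Algebra k R]

/-- The logarithmic differential `u⁻¹ d u` of a unit. -/
noncomputable def dlog (u : Rˣ) : Ω[R⁄k] := ((u⁻¹ : Rˣ) : R) • KaehlerDifferential.D k R (u : R)

/-- The form `dlog u 1 ∧ ⋯ ∧ dlog u n`. -/
noncomputable def dlogForm {n : ℕ} (u : Fin n → Rˣ) : ⋀[R]^n (Ω[R⁄k]) :=
  exteriorPower.ιMulti R n (fun i => dlog k (u i))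

end forms

section power

variable (k : Type) [Field k]

/-- The tensor power `K ⊗ ⋯ ⊗ K` (`n` factors) of the field `K = k (t)` of rational functions. -/
abbrev Power (n : ℕ) : Type := PiTensorProduct k (fun _ : Fin n => RatFunc k)

/-- The tensor power as a `k`-algebra. -/
noncomputable abbrev power (n : ℕ) : CommAlgCat.{0} k := CommAlgCat.of k (Power k n)

variable {k}

/-- The permutation of the factors of the tensor power: `f 1 ⊗ ⋯ ⊗ f n` is mapped to the tensor
with the factor `f (σ⁻¹ i)` in the place `i`. -/
noncomputable def permute {n : ℕ} (σ : Equiv.Perm (Fin n)) : Power k n →ₐ[k] Power k n :=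
  AlgHom.ofLinearMap (PiTensorProduct.reindex k (fun _ => RatFunc k) σ).toLinearMap
    (by
      rw [PiTensorProduct.one_def]
      simp only [LinearEquiv.coe_coe, PiTensorProduct.reindex_tprod]
      rfl)
    (by
      rw [LinearMap.map_mul_iff]
      ext x y
      simp only [LinearMap.compMultilinearMap_apply, LinearMap.compr₂_apply, LinearMap.mul_apply',
        PiTensorProduct.tprod_mul_tprod, LinearEquiv.coe_coe, PiTensorProduct.reindex_tprod,
        LinearMap.compl₂_apply, LinearMap.comp_apply]
      rfl)

end power

section action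

variable {k : Type} [Field k] {C : Type u} [Category.{v} C] [Preadditive C] [Linear ℚ C]

/-- The action of the element `∑ σ, c σ σ` of the group ring `ℚ[S n]` on `U (K ⊗ ⋯ ⊗ K)`. -/
noncomputable def act (U : CommAlgCat.{0} k ⥤ C) {n : ℕ} (c : Equiv.Perm (Fin n) → ℚ) :
    U.obj (power k n) ⟶ U.obj (power k n) :=
  ∑ σ, c σ • U.map (CommAlgCat.ofHom (permute σ))

omit [Linear ℚ C] in
/-- Symbols `{u 1, …, u n}` of units of commutative `k`-algebras `R` in the groups `Hom (P, U R)`,
which are natural in `R`, and for `R = K ⊗ ⋯ ⊗ K` a homomorphism from `Hom (P, U R)` to the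
differential forms which maps the symbols to `dlog u 1 ∧ ⋯ ∧ dlog u n`. -/
structure Symbols (U : CommAlgCat.{0} k ⥤ C) (n : ℕ) where
  /-- In the application `P = U k [n]`. -/
  P : C
  /-- The symbol of units. -/
  symbol : ∀ R : CommAlgCat.{0} k, (Fin n → Rˣ) → (P ⟶ U.obj R)
  /-- Symbols are natural. -/
  natural : ∀ {R S : CommAlgCat.{0} k} (f : R ⟶ S) (u : Fin n → Rˣ),
    symbol R u ≫ U.map f = symbol S (fun i => Units.map (f.hom : R →* S) (u i))
  /-- The Chern character. -/
  trace : (P ⟶ U.obj (power k n)) →+ ⋀[Power k n]^n (Ω[Power k n⁄k])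
  /-- The Chern character of a symbol. -/
  trace_symbol : ∀ u : Fin n → (Power k n)ˣ, trace (symbol (power k n) u) = dlogForm k u

end action

end Pool.Agent.W484.SF
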