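import Mathlib
import Pool.Agent.W484.SF.Stm

/-!
# Evaluation of the tensor power in the field of rational functions in `n` variables
-/

set_option autoImplicit false

open TensorProduct

namespace Pool.Agent.W484.SF

variable (k : Type) [Field k] (n : ℕ)

/-- The field of rational functions in `n` variables. -/
abbrev FF : Type := FractionRing (MvPolynomial (Fin n) k)

/-- The variables. -/
noncomputable def xx (i : Fin n) : FF k n :=
  algebraMap (MvPolynomial (Fin n) k) (FF k n) (MvPolynomial.X i)

lemma aeval_xx_injective (i : Fin n) :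
    Function.Injective (Polynomial.aeval (R := k) (xx k n i)) := by
  have h1 : Transcendental k (MvPolynomial.X i : MvPolynomial (Fin n) k) :=
    MvPolynomial.transcendental_X k i
  have h2 : Transcendental k (xx k n i) :=
    (transcendental_algebraMap_iff (IsFractionRing.injective _ _)).2 h1
  exact transcendental_iff_injective.1 h2

/-- The embedding of `k (t)` with `t` mapped to the variable of index `i`. -/
noncomputable def emb (i : Fin n) : RatFunc k →ₐ[k] FF k n :=
  RatFunc.liftAlgHom (Polynomial.aeval (xx k n i))
    (nonZeroDivisors_le_comap_nonZeroDivisors_of_injective _ (aeval_xx_injective k n i))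

lemma emb_X (i : Fin n) : emb k n i RatFunc.X = xx k n i := by
  have h := RatFunc.liftAlgHom_apply_div (Polynomial.aeval (R := k) (xx k n i))
    (nonZeroDivisors_le_comap_nonZeroDivisors_of_injective _ (aeval_xx_injective k n i))
    Polynomial.X 1
  rw [map_one, map_one, div_one, div_one, RatFunc.algebraMap_X, Polynomial.aeval_X] at h
  exact h

/-- The product of the embeddings. -/
noncomputable def evMulti : MultilinearMap k (fun _ : Fin n => RatFunc k) (FF k n) :=
  (MultilinearMap.mkPiAlgebra k (Fin n) (FF k n)).compLinearMap
    (fun i => (emb k n i).toLinearMap)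

lemma evMulti_apply (x : Fin n → RatFunc k) : evMulti k n x = ∏ i, emb k n i (x i) := by
  rw [evMulti, MultilinearMap.compLinearMap_apply, MultilinearMap.mkPiAlgebra_apply]
  rfl

lemma evMulti_one : evMulti k n 1 = 1 := by
  rw [evMulti_apply]
  exact Finset.prod_eq_one fun i _ => map_one (emb k n i)

lemma evMulti_mul (x y : Fin n → RatFunc k) :
    evMulti k n (x * y) = evMulti k n x * evMulti k n y := by
  rw [evMulti_apply, evMulti_apply, evMulti_apply, ← Finset.prod_mul_distrib]
  exact Finset.prod_congr rfl fun i _ => map_mul (emb k n i) _ _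

/-- The evaluation of the tensor power. -/
noncomputable def ev : Power k n →ₐ[k] FF k n :=
  PiTensorProduct.liftAlgHom (evMulti k n) (evMulti_one k n) (evMulti_mul k n)

lemma ev_single (i : Fin n) (x : RatFunc k) :
    ev k n (PiTensorProduct.singleAlgHom (R := k) (A := fun _ : Fin n => RatFunc k) i x) =
      emb k n i x := by
  rw [ev, PiTensorProduct.liftAlgHom_apply, PiTensorProduct.singleAlgHom_apply,
    PiTensorProduct.lift.tprod, evMulti_apply, Finset.prod_eq_single i]
  · rw [MonoidHom.mulSingle_apply, Pi.mulSingle_eq_same]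
  · intro j _ hj
    rw [MonoidHom.mulSingle_apply, Pi.mulSingle_eq_of_ne hj]
    exact map_one (emb k n j)
  · intro h
    exact absurd (Finset.mem_univ i) h

lemma permute_single (σ : Equiv.Perm (Fin n)) (i : Fin n) (x : RatFunc k) :
    permute σ (PiTensorProduct.singleAlgHom (R := k) (A := fun _ : Fin n => RatFunc k) i x) =
      PiTensorProduct.singleAlgHom (R := k) (A := fun _ : Fin n => RatFunc k) (σ i) x := by
  rw [PiTensorProduct.singleAlgHom_apply, PiTensorProduct.singleAlgHom_apply]
  change PiTensorProduct.reindex k (fun _ => RatFunc k) σ _ = _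
  rw [PiTensorProduct.reindex_tprod]
  congr 1
  funext j
  rw [MonoidHom.mulSingle_apply, MonoidHom.mulSingle_apply, Pi.mulSingle_apply, Pi.mulSingle_apply]
  by_cases h : j = σ i
  · rw [if_pos h, if_pos (by rw [h, Equiv.symm_apply_apply])]
  · rw [if_neg h, if_neg (fun e => h (by rw [← e, Equiv.apply_symm_apply]))]

/-- The basis of differentials of the field of rational functions. -/
noncomputable def bas : Module.Basis (Fin n) (FF k n) Ω[FF k n⁄k] :=
  ((KaehlerDifferential.mvPolynomialBasis k (Fin n)).baseChange (FF k n)).map
    (haveI : Algebra.FormallyEtale (MvPolynomial (Fin n) k) (FF k n) :=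
      Algebra.FormallyEtale.of_isLocalization (nonZeroDivisors (MvPolynomial (Fin n) k))
    KaehlerDifferential.tensorKaehlerEquivOfFormallyEtale k (MvPolynomial (Fin n) k) (FF k n))

lemma bas_apply (i : Fin n) : bas k n i = KaehlerDifferential.D k (FF k n) (xx k n i) := by
  rw [bas, Module.Basis.map_apply, Module.Basis.baseChange_apply,
    KaehlerDifferential.mvPolynomialBasis_apply,
    KaehlerDifferential.tensorKaehlerEquivOfFormallyEtale_apply,
    KaehlerDifferential.mapBaseChange_tmul, one_smul, KaehlerDifferential.map_D, xx]

/-- The determinant of logarithmic differentials. -/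
lemma det_dlog (a : Fin n → k) (σ : Equiv.Perm (Fin n)) :
    (bas k n).det (fun i => (xx k n (σ i) - algebraMap k (FF k n) (a i))⁻¹ •
      KaehlerDifferential.D k (FF k n) (xx k n (σ i) - algebraMap k (FF k n) (a i))) =
      ((Equiv.Perm.sign σ : ℤ) : FF k n) *
        ∏ i, (xx k n (σ i) - algebraMap k (FF k n) (a i))⁻¹ := by
  have h1 : ∀ i, KaehlerDifferential.D k (FF k n) (xx k n (σ i) - algebraMap k (FF k n) (a i)) =
      bas k n (σ i) := by
    intro i
    rw [map_sub, Derivation.map_algebraMap, sub_zero, bas_apply]
  simp only [h1]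
  rw [AlternatingMap.map_smul_univ]
  have h2 := (bas k n).det.map_perm (bas k n) σ
  have h3 : ((bas k n) ∘ σ) = fun i => bas k n (σ i) := rfl
  rw [h3, Module.Basis.det_self] at h2
  rw [h2, smul_eq_mul, mul_comm, Units.smul_def, zsmul_eq_mul, mul_one]

end Pool.Agent.W484.SF
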