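import Mathlib
import Pool.Agent.W484.SF.Eval

/-!
# Independence of products of partial fractions
-/

set_option autoImplicit false

open TensorProduct

namespace Pool.Agent.W484.SF

variable (k : Type) [Field k] (n : ℕ)

/-- The product over all factors except the ones which are inverted. -/
noncomputable def gg (a : Fin n → k) (σ : Equiv.Perm (Fin n)) : MvPolynomial (Fin n) k :=
  ∏ i, ∏ j ∈ Finset.univ.erase (σ i), (MvPolynomial.X j - MvPolynomial.C (a i))

lemma algebraMap_C (x : k) : algebraMap (MvPolynomial (Fin n) k) (FF k n) (MvPolynomial.C x) =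
    algebraMap k (FF k n) x := by
  rw [IsScalarTower.algebraMap_apply k (MvPolynomial (Fin n) k) (FF k n),
    MvPolynomial.algebraMap_eq]

lemma xx_sub_ne (i : Fin n) (x : k) : xx k n i - algebraMap k (FF k n) x ≠ 0 := by
  intro h
  have h1 : Polynomial.aeval (R := k) (xx k n i) (Polynomial.X - Polynomial.C x) = 0 := by
    rw [map_sub, Polynomial.aeval_X, Polynomial.aeval_C, h]
  have h2 := aeval_xx_injective k n i (h1.trans (map_zero _).symm)
  exact Polynomial.X_sub_C_ne_zero x h2

lemma algebraMap_gg (a : Fin n → k) (σ : Equiv.Perm (Fin n)) :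
    algebraMap (MvPolynomial (Fin n) k) (FF k n) (gg k n a σ) =
      (∏ i, ∏ j, (xx k n j - algebraMap k (FF k n) (a i))) *
        ∏ i, (xx k n (σ i) - algebraMap k (FF k n) (a i))⁻¹ := by
  rw [gg, map_prod, ← Finset.prod_mul_distrib]
  refine Finset.prod_congr rfl fun i _ => ?_
  rw [map_prod, ← Finset.mul_prod_erase Finset.univ _ (Finset.mem_univ (σ i)), mul_comm,
    ← mul_assoc, inv_mul_cancel₀ (xx_sub_ne k n (σ i) (a i)), one_mul]
  refine Finset.prod_congr rfl fun j _ => ?_
  rw [map_sub, algebraMap_C, xx]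

lemma eval_gg_ne (a : Fin n → k) (τ σ : Equiv.Perm (Fin n)) (h : σ ≠ τ) :
    MvPolynomial.eval (fun j => a (τ.symm j)) (gg k n a σ) = 0 := by
  obtain ⟨i, hi⟩ : ∃ i, σ i ≠ τ i := by
    by_contra hc
    push Not at hc
    exact h (Equiv.ext hc)
  rw [gg, map_prod]
  refine Finset.prod_eq_zero (Finset.mem_univ i) ?_
  rw [map_prod]
  refine Finset.prod_eq_zero (Finset.mem_erase.2 ⟨hi.symm, Finset.mem_univ (τ i)⟩) ?_
  rw [map_sub, MvPolynomial.eval_X, MvPolynomial.eval_C, Equiv.symm_apply_apply, sub_self]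

lemma eval_gg_self (a : Fin n → k) (ha : Function.Injective a) (τ : Equiv.Perm (Fin n)) :
    MvPolynomial.eval (fun j => a (τ.symm j)) (gg k n a τ) ≠ 0 := by
  rw [gg, map_prod]
  refine Finset.prod_ne_zero_iff.2 fun i _ => ?_
  rw [map_prod]
  refine Finset.prod_ne_zero_iff.2 fun j hj => ?_
  rw [map_sub, MvPolynomial.eval_X, MvPolynomial.eval_C]
  refine sub_ne_zero.2 fun e => ?_
  have h1 : τ.symm j = i := ha e
  have h2 : j = τ i := by rw [← h1, Equiv.apply_symm_apply]
  exact (Finset.mem_erase.1 hj).1 h2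

lemma independent [CharZero k] (a : Fin n → k) (ha : Function.Injective a)
    (c : Equiv.Perm (Fin n) → ℚ)
    (h : ∑ σ, (c σ : FF k n) * (((Equiv.Perm.sign σ : ℤ) : FF k n) *
      ∏ i, (xx k n (σ i) - algebraMap k (FF k n) (a i))⁻¹) = 0) :
    c = 0 := by
  funext τ
  have h1 : algebraMap (MvPolynomial (Fin n) k) (FF k n)
      (∑ σ, MvPolynomial.C ((c σ : k) * ((Equiv.Perm.sign σ : ℤ) : k)) * gg k n a σ) = 0 := by
    rw [map_sum]
    have h2 : ∀ σ : Equiv.Perm (Fin n), algebraMap (MvPolynomial (Fin n) k) (FF k n)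
        (MvPolynomial.C ((c σ : k) * ((Equiv.Perm.sign σ : ℤ) : k)) * gg k n a σ) =
        (∏ i, ∏ j, (xx k n j - algebraMap k (FF k n) (a i))) *
        ((c σ : FF k n) * (((Equiv.Perm.sign σ : ℤ) : FF k n) *
          ∏ i, (xx k n (σ i) - algebraMap k (FF k n) (a i))⁻¹)) := by
      intro σ
      rw [map_mul, algebraMap_C, algebraMap_gg, map_mul, map_ratCast, map_intCast]
      ring
    rw [Finset.sum_congr rfl fun σ _ => h2 σ, ← Finset.mul_sum, h, mul_zero]
  have h3 : (∑ σ, MvPolynomial.C ((c σ : k) * ((Equiv.Perm.sign σ : ℤ) : k)) * gg k n a σ) = 0 :=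
    IsFractionRing.injective (MvPolynomial (Fin n) k) (FF k n) (h1.trans (map_zero _).symm)
  have h4 := congrArg (MvPolynomial.eval (fun j => a (τ.symm j))) h3
  rw [map_sum, map_zero, Finset.sum_eq_single τ] at h4
  · rw [map_mul, MvPolynomial.eval_C] at h4
    have h5 := (mul_eq_zero.1 h4).resolve_right (eval_gg_self k n a ha τ)
    have h6 : ((Equiv.Perm.sign τ : ℤ) : k) ≠ 0 := by
      rcases Int.units_eq_one_or (Equiv.Perm.sign τ) with e | e
      · rw [e]
        simp
      · rw [e]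
        simp
    have h7 := (mul_eq_zero.1 h5).resolve_right h6
    exact_mod_cast h7
  · intro σ _ hσ
    rw [map_mul, eval_gg_ne k n a τ σ hσ, mul_zero]
  · intro hc
    exact absurd (Finset.mem_univ τ) hc

end Pool.Agent.W484.SF
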