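import Mathlib
import Pool.Agent.W484.SF.Indep

/-!
# The group ring acts faithfully
-/

set_option autoImplicit false

open CategoryTheory

namespace Pool.Agent.W484.SF

universe u v

section functional

variable (k : Type) [Field k] (n : ℕ)

lemma exists_functional : ∃ φ : (⋀[Power k n]^n (Ω[Power k n⁄k])) →+ FF k n,
    ∀ u : Fin n → (Power k n)ˣ, φ (dlogForm k u) =
      (bas k n).det (fun i => (ev k n (u i))⁻¹ • KaehlerDifferential.D k (FF k n) (ev k n (u i))) := by
  let _ : Algebra (Power k n) (FF k n) := (ev k n).toRingHom.toAlgebra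
  have : IsScalarTower k (Power k n) (FF k n) :=
    IsScalarTower.of_algebraMap_eq (fun x => ((ev k n).commutes x).symm)
  let m : Ω[Power k n⁄k] →ₗ[Power k n] Ω[FF k n⁄k] :=
    KaehlerDifferential.map k k (Power k n) (FF k n)
  let f : AlternatingMap (Power k n) Ω[Power k n⁄k] (FF k n) (Fin n) :=
    { ((bas k n).det.toMultilinearMap.restrictScalars (Power k n)).compLinearMap
        (fun _ => m) with
      map_eq_zero_of_eq' := fun v i j hv hij =>
        (bas k n).det.map_eq_zero_of_eq (fun i => m (v i)) (by rw [hv]) hij }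
  refine ⟨(exteriorPower.alternatingMapLinearEquiv f).toAddMonoidHom, fun u => ?_⟩
  change exteriorPower.alternatingMapLinearEquiv f (exteriorPower.ιMulti _ n _) = _
  rw [exteriorPower.alternatingMapLinearEquiv_apply_ιMulti]
  change (bas k n).det (fun i => m (dlog k (u i))) = _
  congr 1
  funext i
  have h1 : m (dlog k (u i)) = (algebraMap (Power k n) (FF k n) ((u i)⁻¹ : (Power k n)ˣ)) •
      KaehlerDifferential.D k (FF k n) (algebraMap (Power k n) (FF k n) (u i)) := by
    rw [dlog, map_smul, KaehlerDifferential.map_D, algebraMap_smul]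
  rw [h1]
  have h2 : (algebraMap (Power k n) (FF k n) ((u i)⁻¹ : (Power k n)ˣ)) = (ev k n (u i))⁻¹ := by
    refine eq_inv_of_mul_eq_one_left ?_
    change ev k n _ * ev k n _ = 1
    rw [← map_mul, Units.inv_mul, map_one]
  rw [h2]
  rfl

end functional

lemma map_smul_rat {K M : Type*} [Field K] [CharZero K] [AddCommGroup M] [Module ℚ M]
    (f : M →+ K) (q : ℚ) (x : M) : f (q • x) = (q : K) * f x := by
  rw [map_rat_smul f q x, Rat.smul_def]

section final

variable {k : Type} [Field k] [CharZero k] {n : ℕ}

/-- The elements `t - i`. -/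
noncomputable def lin (i : Fin n) : RatFunc k :=
  RatFunc.X - algebraMap k (RatFunc k) ((i : ℕ) : k)

omit [CharZero k] in
lemma lin_ne (i : Fin n) : (lin i : RatFunc k) ≠ 0 := by
  intro h
  have h1 := congrArg (emb k n i) h
  rw [lin, map_sub, emb_X, AlgHom.commutes, map_zero] at h1
  exact xx_sub_ne k n i _ h1

/-- The units `t_j - i` of the tensor power. -/
noncomputable def units (i j : Fin n) : (Power k n)ˣ :=
  Units.map (PiTensorProduct.singleAlgHom (R := k) (A := fun _ : Fin n => RatFunc k) j :
    RatFunc k →* Power k n) (Units.mk0 (lin i) (lin_ne i))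

omit [CharZero k] in
lemma ev_units (i j : Fin n) : ev k n (units i j : (Power k n)ˣ) =
    xx k n j - algebraMap k (FF k n) ((i : ℕ) : k) := by
  change ev k n (PiTensorProduct.singleAlgHom (R := k) (A := fun _ : Fin n => RatFunc k) j
    (lin i)) = _
  rw [ev_single, lin, map_sub, emb_X, AlgHom.commutes]

omit [CharZero k] in
lemma map_units (σ : Equiv.Perm (Fin n)) (i j : Fin n) :
    Units.map ((CommAlgCat.ofHom (permute (k := k) σ)).hom : Power k n →* Power k n) (units i j) =
      units i (σ j) := by
  apply Units.ext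
  exact permute_single k n σ j (lin i)

variable {C : Type u} [Category.{v} C] [Preadditive C] [Linear ℚ C]

/-- The group ring of the symmetric group acts faithfully. -/
theorem act_ne_zero (U : CommAlgCat.{0} k ⥤ C) {P : C}
    (symbol : (Fin n → (Power k n)ˣ) → (P ⟶ U.obj (power k n)))
    (natural : ∀ (σ : Equiv.Perm (Fin n)) (u : Fin n → (Power k n)ˣ),
      symbol u ≫ U.map (CommAlgCat.ofHom (permute σ)) =
        symbol (fun i => Units.map (permute (k := k) σ : Power k n →* Power k n) (u i)))
    (trace : (P ⟶ U.obj (power k n)) →+ ⋀[Power k n]^n (Ω[Power k n⁄k]))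
    (trace_symbol : ∀ u : Fin n → (Power k n)ˣ, trace (symbol u) = dlogForm k u)
    (c : Equiv.Perm (Fin n) → ℚ)
    (hc : c ≠ 0) : act U c ≠ 0 := by
  intro h
  apply hc
  obtain ⟨φ, hφ⟩ := exists_functional k n
  have h1 : symbol (fun i => units i i) ≫ act U c = 0 := by rw [h, Limits.comp_zero]
  have h2 : φ (trace (symbol (fun i => units i i) ≫ act U c)) = 0 := by
    rw [h1, map_zero, map_zero]
  apply independent k n (fun i => ((i : ℕ) : k)) (fun i j hij => Fin.ext (Nat.cast_injective hij)) c
  rw [← h2, act, Preadditive.comp_sum, map_sum, map_sum]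
  refine Finset.sum_congr rfl fun σ _ => ?_
  rw [Linear.comp_smul, natural]
  have h3 : (fun i => Units.map (permute (k := k) σ : Power k n →* Power k n) ((fun i => units i i) i)) =
      fun i => units (k := k) i (σ i) :=
    funext fun i => map_units σ i i
  rw [h3]
  have h4 := map_smul_rat (φ.comp trace) (c σ) (symbol (fun i => units (k := k) i (σ i)))
  change φ (trace _) = _ * φ (trace _) at h4
  rw [h4, trace_symbol, hφ]
  congr 1
  rw [← det_dlog]
  simp only [ev_units]

end final

end Pool.Agent.W484.SF
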