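import Mathlib
import Pool.Agent.W484.SF.Stm

/-!
# The field of rational functions is smooth as a dg category
-/

set_option autoImplicit false

open Polynomial TensorProduct

namespace Pool.Agent.W484.SF

variable (k : Type) [Field k]

/-- The inclusion of polynomials. -/
noncomputable def incl : k[X] →ₐ[k] RatFunc k := Algebra.ofId k[X] (RatFunc k) |>.restrictScalars k

lemma incl_injective : Function.Injective (incl k) :=
  IsFractionRing.injective k[X] (RatFunc k)

/-- The map on tensor squares. -/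
noncomputable def incl2 : (k[X] ⊗[k] k[X]) →ₐ[k] (RatFunc k ⊗[k] RatFunc k) :=
  Algebra.TensorProduct.map (incl k) (incl k)

lemma incl2_injective : Function.Injective (incl2 k) :=
  TensorProduct.map_injective_of_flat_flat (incl k).toLinearMap (incl k).toLinearMap
    (incl_injective k) (incl_injective k)

instance : IsDomain (k[X] ⊗[k] k[X]) :=
  MulEquiv.isDomain _ (polyEquivTensor k k[X]).symm.toMulEquiv

/-- The difference of the two variables, in the polynomial ring. -/
noncomputable def dPoly : k[X] ⊗[k] k[X] := 1 ⊗ₜ X - X ⊗ₜ 1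

lemma dPoly_ne : dPoly k ≠ 0 := by
  intro h
  have h1 : (1 : k[X]) ⊗ₜ[k] (X : k[X]) = X ⊗ₜ 1 := sub_eq_zero.1 h
  have h2 := congrArg (Algebra.TensorProduct.productMap
    ((Algebra.ofId k k[X]).comp (aeval (0 : k))) (AlgHom.id k k[X])) h1
  rw [Algebra.TensorProduct.productMap_apply_tmul, Algebra.TensorProduct.productMap_apply_tmul,
    map_one, map_one, one_mul, mul_one, AlgHom.comp_apply, aeval_X, map_zero] at h2
  exact X_ne_zero h2

/-- The difference of the two variables. -/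
noncomputable def dd : RatFunc k ⊗[k] RatFunc k := 1 ⊗ₜ RatFunc.X - RatFunc.X ⊗ₜ 1

lemma incl2_dPoly : incl2 k (dPoly k) = dd k := by
  have hX : incl k X = RatFunc.X := RatFunc.algebraMap_X
  rw [dPoly, dd, map_sub, incl2, Algebra.TensorProduct.map_tmul, Algebra.TensorProduct.map_tmul,
    map_one, hX]

/-- Common denominators. -/
lemma exists_denominator (z : RatFunc k ⊗[k] RatFunc k) :
    ∃ p q : k[X], p ≠ 0 ∧ q ≠ 0 ∧ ∃ w, (incl k p ⊗ₜ[k] incl k q) * z = incl2 k w := by
  induction z using TensorProduct.induction_on with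
  | zero => exact ⟨1, 1, one_ne_zero, one_ne_zero, 0, by rw [mul_zero, map_zero]⟩
  | tmul a b =>
    obtain ⟨p, q, hq, rfl⟩ := IsFractionRing.div_surjective (A := k[X]) a
    obtain ⟨r, s, hs, rfl⟩ := IsFractionRing.div_surjective (A := k[X]) b
    have hq' : q ≠ 0 := nonZeroDivisors.ne_zero hq
    have hs' : s ≠ 0 := nonZeroDivisors.ne_zero hs
    refine ⟨q, s, hq', hs', p ⊗ₜ r, ?_⟩
    have e1 : incl k q ≠ 0 := fun h => hq' (incl_injective k (h.trans (map_zero _).symm))
    have e2 : incl k s ≠ 0 := fun h => hs' (incl_injective k (h.trans (map_zero _).symm))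
    rw [Algebra.TensorProduct.tmul_mul_tmul, incl2, Algebra.TensorProduct.map_tmul]
    congr 1
    · exact mul_div_cancel₀ _ e1
    · exact mul_div_cancel₀ _ e2
  | add x y hx hy =>
    obtain ⟨p, q, hp, hq, w, hw⟩ := hx
    obtain ⟨p', q', hp', hq', w', hw'⟩ := hy
    refine ⟨p * p', q * q', mul_ne_zero hp hp', mul_ne_zero hq hq',
      (p' ⊗ₜ q') * w + (p ⊗ₜ q) * w', ?_⟩
    have e1 : incl2 k (p ⊗ₜ q) = incl k p ⊗ₜ incl k q := by
      rw [incl2, Algebra.TensorProduct.map_tmul]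
    have e2 : incl2 k (p' ⊗ₜ q') = incl k p' ⊗ₜ incl k q' := by
      rw [incl2, Algebra.TensorProduct.map_tmul]
    rw [map_add (incl2 k), map_mul (incl2 k), map_mul (incl2 k), e1, e2, ← hw, ← hw',
      map_mul (incl k), map_mul (incl k), ← Algebra.TensorProduct.tmul_mul_tmul]
    ring

lemma dd_regular (z : RatFunc k ⊗[k] RatFunc k) (h : dd k * z = 0) : z = 0 := by
  obtain ⟨p, q, hp, hq, w, hw⟩ := exists_denominator k z
  have e1 : incl k p ≠ 0 := fun h => hp (incl_injective k (h.trans (map_zero _).symm))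
  have e2 : incl k q ≠ 0 := fun h => hq (incl_injective k (h.trans (map_zero _).symm))
  have h1 : incl2 k (dPoly k * w) = 0 := by
    rw [map_mul, incl2_dPoly, ← hw, mul_left_comm, h, mul_zero]
  have h2 : dPoly k * w = 0 := incl2_injective k (h1.trans (map_zero _).symm)
  have h3 : w = 0 := (mul_eq_zero.1 h2).resolve_left (dPoly_ne k)
  rw [h3, map_zero] at hw
  have h4 : ((incl k p)⁻¹ ⊗ₜ[k] (incl k q)⁻¹) * ((incl k p ⊗ₜ[k] incl k q) * z) = z := by
    rw [← mul_assoc, Algebra.TensorProduct.tmul_mul_tmul, inv_mul_cancel₀ e1, inv_mul_cancel₀ e2,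
      ← Algebra.TensorProduct.one_def, one_mul]
  rw [← h4, hw, mul_zero]

lemma dd_dvd (a : RatFunc k) : dd k ∣ 1 ⊗ₜ a - a ⊗ₜ 1 := by
  have hpoly : ∀ p : k[X], dd k ∣ 1 ⊗ₜ incl k p - incl k p ⊗ₜ 1 := by
    intro p
    have h := Polynomial.sub_dvd_eval_sub ((1 : RatFunc k) ⊗ₜ[k] (RatFunc.X : RatFunc k))
      (RatFunc.X ⊗ₜ[k] 1) (p.map (algebraMap k (RatFunc k ⊗[k] RatFunc k)))
    rw [Polynomial.eval_map_algebraMap, Polynomial.eval_map_algebraMap] at h
    have h1 : aeval ((1 : RatFunc k) ⊗ₜ[k] (RatFunc.X : RatFunc k)) p = 1 ⊗ₜ incl k p := by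
      have : (aeval ((1 : RatFunc k) ⊗ₜ[k] (RatFunc.X : RatFunc k)) : k[X] →ₐ[k] _) =
          (Algebra.TensorProduct.includeRight).comp (incl k) := by
        ext
        simp [incl, Algebra.ofId_apply]
      rw [this]
      rfl
    have h2 : aeval ((RatFunc.X : RatFunc k) ⊗ₜ[k] (1 : RatFunc k)) p = incl k p ⊗ₜ 1 := by
      have : (aeval ((RatFunc.X : RatFunc k) ⊗ₜ[k] (1 : RatFunc k)) : k[X] →ₐ[k] _) =
          (Algebra.TensorProduct.includeLeft).comp (incl k) := by
        ext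
        simp [incl, Algebra.ofId_apply]
      rw [this]
      rfl
    rwa [h1, h2] at h
  obtain ⟨p, q, hq, rfl⟩ := IsFractionRing.div_surjective (A := k[X]) a
  have hq' : q ≠ 0 := nonZeroDivisors.ne_zero hq
  have e1 : incl k q ≠ 0 := fun h => hq' (incl_injective k (h.trans (map_zero _).symm))
  change dd k ∣ 1 ⊗ₜ (incl k p / incl k q) - (incl k p / incl k q) ⊗ₜ 1
  have key : (1 : RatFunc k) ⊗ₜ[k] (incl k p / incl k q) - (incl k p / incl k q) ⊗ₜ[k] 1 =
      ((incl k q)⁻¹ ⊗ₜ (incl k q)⁻¹) * ((incl k q ⊗ₜ 1) * (1 ⊗ₜ incl k p - incl k p ⊗ₜ 1)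
        - (incl k p ⊗ₜ 1) * (1 ⊗ₜ incl k q - incl k q ⊗ₜ 1)) := by
    have e3 : (incl k q)⁻¹ * (incl k q * incl k p) = incl k p := by
      rw [← mul_assoc, inv_mul_cancel₀ e1, one_mul]
    have e4 : (incl k q)⁻¹ * (incl k p * incl k q) = incl k p := by
      rw [mul_comm (incl k p), e3]
    simp only [mul_sub, Algebra.TensorProduct.tmul_mul_tmul, mul_one, one_mul, e3, e4,
      inv_mul_cancel₀ e1, div_eq_inv_mul]
    abel
  rw [key]
  exact Dvd.dvd.mul_left (dvd_sub (Dvd.dvd.mul_left (hpoly p) _) (Dvd.dvd.mul_left (hpoly q) _)) _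

/-- The field of rational functions is smooth. -/
theorem smooth_ratFunc : HasSmoothDiagonal k (RatFunc k) := by
  refine ⟨dd k, dd_regular k, fun z => ⟨fun hz => ?_, ?_⟩⟩
  · have h1 : z ∈ KaehlerDifferential.ideal k (RatFunc k) := hz
    rw [← KaehlerDifferential.span_range_eq_ideal] at h1
    have h2 : Ideal.span (Set.range fun s : RatFunc k => (1 : RatFunc k) ⊗ₜ[k] s - s ⊗ₜ[k] 1) ≤
        Ideal.span {dd k} := by
      rw [Ideal.span_le]
      rintro _ ⟨s, rfl⟩
      exact Ideal.mem_span_singleton.2 (dd_dvd k s)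
    exact Ideal.mem_span_singleton.1 (h2 h1)
  · rintro ⟨w, rfl⟩
    rw [map_mul]
    have : Algebra.TensorProduct.lmul' k (dd k) = 0 := by
      rw [dd, map_sub, Algebra.TensorProduct.lmul'_apply_tmul,
        Algebra.TensorProduct.lmul'_apply_tmul, one_mul, mul_one, sub_self]
    rw [this, zero_mul]

end Pool.Agent.W484.SF
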