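import Mathlib
import Pool.Agent.W484.SF.Smooth
import Pool.Agent.W484.SF.Main

/-!
# The field of rational functions is not Schur-finite: the statement in short form
-/

set_option autoImplicit false

open CategoryTheory

namespace Pool.Agent.W484.SF.Short

universe u v

section smooth

variable (k K : Type) [Field k] [CommRing K] [Algebra k K]

/-- The tensor square `K ⊗ K`. -/
def Square : Type := TensorProduct k K K

/-- The tensor square is a commutative ring. -/
noncomputable instance : CommRing (Square k K) :=
  (Algebra.TensorProduct.instCommRing : CommRing (TensorProduct k K K))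

/-- The multiplication `K ⊗ K → K`. -/
noncomputable def mulMap : Square k K →+* K := (Algebra.TensorProduct.lmul' k (S := K)).toRingHom

/-- There is `d` in `K ⊗ K` which is not a zero divisor and generates the kernel of the
multiplication. So there is an exact sequence `0 → K ⊗ K → K ⊗ K → K → 0` of bimodules, and `K` is a
perfect (compact) object of the derived category of `K`-bimodules: `K` is smooth. -/
def HasSmoothDiagonal : Prop :=
  ∃ d : Square k K, (∀ z, d * z = 0 → z = 0) ∧ ∀ z, mulMap k K z = 0 ↔ ∃ w, z = d * w

end smooth

section exterior

variable (R M : Type) [CommRing R] [AddCommGroup M] [Module R M] (n : ℕ)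

/-- The exterior power of a module. -/
def Ext : Type := ⋀[R]^n M

/-- The exterior power is an abelian group. -/
noncomputable instance : AddCommGroup (Ext R M n) :=
  (Submodule.addCommGroup _ : AddCommGroup (⋀[R]^n M))

/-- The exterior power is a module. -/
noncomputable instance : Module R (Ext R M n) := 
  (Submodule.module _ : Module R (⋀[R]^n M))

variable {M n}

/-- The map `v 1 ∧ ⋯ ∧ v n` to the exterior power. -/
noncomputable def wedge : AlternatingMap R M (Ext R M n) (Fin n) := exteriorPower.ιMulti R n

end exterior

section forms

variable (k R : Type) [Field k] [CommRing R] [Algebra k R]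

/-- The Kähler differentials. -/
def Omega : Type := KaehlerDifferential k R

/-- The differentials are an abelian group. -/
noncomputable instance : AddCommGroup (Omega k R) :=
  (inferInstance : AddCommGroup (KaehlerDifferential k R))

/-- The differentials are a module. -/
noncomputable instance : Module R (Omega k R) :=
  (inferInstance : Module R (KaehlerDifferential k R))

variable {R}

/-- The differential `d x`. -/
noncomputable def diff (x : R) : Omega k R := KaehlerDifferential.D k R x

/-- The logarithmic differential `u⁻¹ d u` of a unit. -/
noncomputable def dlog (u : Rˣ) : Omega k R := ((u⁻¹ : Rˣ) : R) • diff k (u : R)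

variable (R)

/-- The differential forms of degree `n`. -/
abbrev Forms (n : ℕ) : Type := Ext R (Omega k R) n

variable {R}

/-- The form `dlog u 1 ∧ ⋯ ∧ dlog u n`. -/
noncomputable def dlogForm {n : ℕ} (u : Fin n → Rˣ) : Forms k R n := wedge R (fun i => dlog k (u i))

end forms

section power

variable (k : Type) [Field k] (n : ℕ)

/-- The tensor power `K ⊗ ⋯ ⊗ K` (`n` factors) of the field `K = k (t)` of rational functions. -/
def Power : Type := PiTensorProduct k (fun _ : Fin n => RatFunc k)

/-- The tensor power is a commutative ring. -/
noncomputable instance : CommRing (Power k n) :=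
  (PiTensorProduct.instCommRing : CommRing (PiTensorProduct k (fun _ : Fin n => RatFunc k)))

/-- The tensor power is a `k`-algebra. -/
noncomputable instance : Algebra k (Power k n) :=
  (PiTensorProduct.instAlgebra : Algebra k (PiTensorProduct k (fun _ : Fin n => RatFunc k)))

/-- The tensor power as an object. -/
noncomputable def power : CommAlgCat.{0} k := CommAlgCat.of k (Power k n)

variable {k n}

/-- The permutation of the factors of the tensor power: `f 1 ⊗ ⋯ ⊗ f n` is mapped to the tensor
with the factor `f (σ⁻¹ i)` in the place `i`. -/
noncomputable def shuffle (σ : Equiv.Perm (Fin n)) : Power k n →ₗ[k] Power k n :=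
  (PiTensorProduct.reindex k (fun _ => RatFunc k) σ).toLinearMap

lemma shuffle_one (σ : Equiv.Perm (Fin n)) : shuffle σ (1 : Power k n) = 1 :=
  map_one (SF.permute σ)

lemma shuffle_mul (σ : Equiv.Perm (Fin n)) (x y : Power k n) :
    shuffle σ (x * y) = shuffle σ x * shuffle σ y :=
  map_mul (SF.permute σ) x y

/-- The permutation of the factors as a homomorphism of algebras. -/
noncomputable def permute (σ : Equiv.Perm (Fin n)) : Power k n →ₐ[k] Power k n :=
  AlgHom.ofLinearMap (shuffle σ) (shuffle_one σ) (shuffle_mul σ)

/-- The permutation as a morphism. -/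
noncomputable def perm (σ : Equiv.Perm (Fin n)) : power k n ⟶ power k n :=
  CommAlgCat.ofHom (permute σ)

/-- The permutation of units. -/
noncomputable def unit (σ : Equiv.Perm (Fin n)) (u : (Power k n)ˣ) : (Power k n)ˣ :=
  Units.map (permute σ).toMonoidHom u

end power

section action

variable {k : Type} [Field k] {C : Type u} [Category.{v} C] (U : CommAlgCat.{0} k ⥤ C) (n : ℕ)

/-- The object `U (K ⊗ ⋯ ⊗ K)`. -/
noncomputable def obj : C := U.obj (power k n)

variable {n}

/-- The action of a permutation on `U (K ⊗ ⋯ ⊗ K)`. -/
noncomputable def map (σ : Equiv.Perm (Fin n)) : obj U n ⟶ obj U n := U.map (perm σ)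

variable [Preadditive C]

/-- The action of the element `∑ σ, c σ σ` of the group ring `ℚ[S n]` on `U (K ⊗ ⋯ ⊗ K)`. -/
noncomputable def act [Linear ℚ C] (c : Equiv.Perm (Fin n) → ℚ) : obj U n ⟶ obj U n :=
  ∑ σ, c σ • map U σ

variable (n)

/-- Symbols `{u 1, …, u n}` of units of `R = K ⊗ ⋯ ⊗ K` in the group `Hom (P, U R)`, which are
compatible with the permutations, and a homomorphism from this group to the differential forms which
maps the symbols to `dlog u 1 ∧ ⋯ ∧ dlog u n`. -/
structure Symbols where
  /-- In the application `P = U k [n]`. -/
  P : C
  /-- The symbol of units. -/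
  symbol : (Fin n → (Power k n)ˣ) → (P ⟶ obj U n)
  /-- Symbols are natural. -/
  natural : ∀ σ u, symbol u ≫ map U σ = symbol (fun i => unit σ (u i))
  /-- The Chern character. -/
  trace : (P ⟶ obj U n) →+ Forms k (Power k n) n
  /-- The Chern character of a symbol. -/
  trace_symbol : ∀ u, trace (symbol u) = dlogForm k u

end action

section bridge

variable {k : Type} [Field k] {C : Type u} [Category.{v} C] [Preadditive C] {n : ℕ}

lemma smooth : HasSmoothDiagonal k (RatFunc k) := smooth_ratFunc k

theorem act_ne_zero [CharZero k] [Linear ℚ C] (U : CommAlgCat.{0} k ⥤ C) (s : Symbols U n)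
    (c : Equiv.Perm (Fin n) → ℚ) (hc : c ≠ 0) : act U c ≠ 0 :=
  SF.act_ne_zero U s.symbol s.natural s.trace s.trace_symbol c hc

end bridge

end Pool.Agent.W484.SF.Short
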